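import Pool.Agent.H30.SplD

set_option autoImplicit false

namespace Pool.Agent.Results.MP_e9bccb_gt.SplitCorson

theorem result :
    ∀ (X : Type) [TopologicalSpace X] [CompactSpace X] [T2Space X],
      (∀ A : Set X, ∃ (Y : Type) (_ : TopologicalSpace Y), CompactSpace Y ∧ T2Space Y ∧
        (∃ (κ : Type) (e : Y → κ → ℝ), Topology.IsEmbedding e ∧
          ∀ y, {i : κ | e y i ≠ 0}.Countable) ∧
        ∃ f : X → Y, Continuous f ∧ f ⁻¹' (f '' A) = A) →
      ∃ (κ : Type) (e : X → κ → ℝ), Topology.IsEmbedding e ∧ ∀ x, {i : κ | e x i ≠ 0}.Countable := by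
  intro X _ _ _ h
  refine (Pool.Agent.H30.Spl.cor_of_split fun A => ?_).embed
  obtain ⟨Y, tY, -, -, h2, h3⟩ := h A
  exact ⟨Y, tY, h2, h3⟩

end Pool.Agent.Results.MP_e9bccb_gt.SplitCorson
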